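import Pool.Agent.W246.TN.Rank

/-!
# MP_354e85_al: Tarski numbers and cost over an infinite amenable subgroup

If a group `H` is generated by a finite set `P` which generates an infinite amenable subgroup and a
finite set `S`, and the cost of `H` is at least `1 + max 1 (|S| / k)`, then every group containing
`H` has a paradoxical decomposition with at most `|P| + k + 2` pieces.
-/

set_option autoImplicit false

open MeasureTheory

namespace Pool.Agent.Results.MP_354e85_al.CostRank

/-- The cost of the countable group `H` is at least `c`: for every essentially free probability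
measure preserving action of `H` on a standard Borel space, every graphing of the orbit relation,
given by restrictions `y ↦ s i • y`, `y ∈ A i`, of elements of `H` to measurable sets, has cost
at least `c`. -/
def CostAtLeast (H : Type) [Group H] (c : ENNReal) : Prop :=
  ∀ (X : Type) [MeasurableSpace X] [StandardBorelSpace X] (μ : Measure X)
    [IsProbabilityMeasure μ] [MulAction H X],
    (∀ g : H, MeasurePreserving (fun x : X => g • x) μ μ) →
    (∀ᵐ x ∂μ, ∀ g : H, g • x = x → g = 1) →
    ∀ (A : ℕ → Set X) (s : ℕ → H), (∀ i, MeasurableSet (A i)) →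
      (∀ᵐ x ∂μ, ∀ g : H, Relation.ReflTransGen
        (fun y z : X => ∃ i, (y ∈ A i ∧ z = s i • y) ∨ (z ∈ A i ∧ y = s i • z)) x (g • x)) →
      c ≤ ∑' i, μ (A i)

/-- `G` has a paradoxical decomposition with at most `N` pieces. -/
def Paradoxical (G : Type) [Group G] (N : ℕ) : Prop :=
  ∃ m n : ℕ, m + n ≤ N ∧
    ∃ (A : Fin m → Set G) (B : Fin n → Set G) (g : Fin m → G) (h : Fin n → G),
      (∀ x : G, ∃! p : Fin m ⊕ Fin n, x ∈ Sum.elim A B p) ∧
      (∀ x : G, ∃! i : Fin m, (g i)⁻¹ * x ∈ A i) ∧
      (∀ x : G, ∃! j : Fin n, (h j)⁻¹ * x ∈ B j)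

/-- The group `K` is amenable: it has a finitely additive left invariant probability measure
defined on all subsets. -/
def Amenable (K : Type) [Group K] : Prop :=
  ∃ m : Set K → ℝ, (∀ A, 0 ≤ m A) ∧ m Set.univ = 1 ∧
    (∀ A B, Disjoint A B → m (A ∪ B) = m A + m B) ∧
    ∀ (g : K) (A : Set K), m ((fun x => g * x) '' A) = m A

/-- Let `H` be a countable group generated by the finite sets `P` and `S`, where `P` generates an
infinite amenable subgroup, and let `k ≥ 1`.  If the cost of `H` is at least
`1 + max 1 (|S| / k)`, then every group `G` containing `H` has a paradoxical decomposition with at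
most `|P| + k + 2` pieces. -/
theorem result (H : Type) [Group H] [Countable H] (P S : Finset H) (k : ℕ) (hk : 1 ≤ k)
    (hgen : Subgroup.closure ((P : Set H) ∪ (S : Set H)) = ⊤)
    (hinf : (Subgroup.closure (P : Set H) : Set H).Infinite)
    (hamen : Amenable (Subgroup.closure (P : Set H)))
    (hcost : CostAtLeast H (1 + max 1 ((S.card : ENNReal) / k)))
    (G : Type) [Group G] (ι : H →* G) (hι : Function.Injective ι) :
    Paradoxical G (P.card + k + 2) := by
  classical
  have hc : ∀ c : ENNReal, c < 1 + max 1 ((S.card : ENNReal) / k) →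
      ¬ Pool.Agent.W336.CS.CostLe H c := by
    rintro c hc ⟨X, h1, h2, μ, h3, h4, h5, h6, A, s, h7, h8, h9⟩
    exact absurd ((hcost X μ h5 h6 A s h7 h8).trans h9) (not_le.2 hc)
  exact Pool.Agent.W246.TN.mainB ι hι P S hgen (Pool.Agent.W361.CS.fol _ hamen) hinf k hk hc

end Pool.Agent.Results.MP_354e85_al.CostRank
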