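import Pool.Agent.W246.TN.Fin

/-!
# MP_354e85_al: Tarski numbers of groups with a subgroup of cost at least two

If a group `H` of cost at least `2` is generated by finite sets `P` and `Q` which generate infinite
subgroups, then every group containing `H` has a paradoxical decomposition with at most
`|P| + |Q| + 2` pieces.  For `|P| + |Q| = 4` this is the bound `6`.
-/

set_option autoImplicit false

open MeasureTheory

namespace Pool.Agent.Results.MP_354e85_al.CostTwo

/-- The cost of the countable group `H` is at least `c`: for every essentially free probability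
measure preserving action of `H` on a standard Borel space, every graphing of the orbit relation,
given by restrictions `y ↦ s i • y`, `y ∈ A i`, of elements of `H` to measurable sets, has cost
at least `c`. -/
def CostAtLeast (H : Type) [Group H] (c : ENNReal) : Prop :=
  ∀ (X : Type) [MeasurableSpace X] [StandardBorelSpace X] (μ : Measure X)
    [IsProbabilityMeasure μ] [MulAction H X],
    (∀ g : H, MeasurePreserving (fun x : X => g • x) μ μ) →
    (∀ᵐ x ∂μ, ∀ g : H, g • x = x → g = 1) →
    ∀ (A : ℕ → Set X) (s : ℕ → H), (∀ i, MeasurableSet (A i)) →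
      (∀ᵐ x ∂μ, ∀ g : H, Relation.ReflTransGen
        (fun y z : X => ∃ i, (y ∈ A i ∧ z = s i • y) ∨ (z ∈ A i ∧ y = s i • z)) x (g • x)) →
      c ≤ ∑' i, μ (A i)

/-- `G` has a paradoxical decomposition with at most `N` pieces. -/
def Paradoxical (G : Type) [Group G] (N : ℕ) : Prop :=
  ∃ m n : ℕ, m + n ≤ N ∧
    ∃ (A : Fin m → Set G) (B : Fin n → Set G) (g : Fin m → G) (h : Fin n → G),
      (∀ x : G, ∃! p : Fin m ⊕ Fin n, x ∈ Sum.elim A B p) ∧
      (∀ x : G, ∃! i : Fin m, (g i)⁻¹ * x ∈ A i) ∧
      (∀ x : G, ∃! j : Fin n, (h j)⁻¹ * x ∈ B j)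

/-- Let `H` be a countable group of cost at least `2` generated by the finite sets `P` and `Q`, such
that `P` generates an infinite subgroup or `Q` has at most one element outside `P`, and the same
with `P` and `Q` exchanged.  Then every group `G` containing `H` has a paradoxical decomposition
with at most `|P| + |Q| + 2` pieces. -/
theorem result (H : Type) [Group H] [Countable H] (hcost : CostAtLeast H 2) (P Q : Finset H)
    (hgen : Subgroup.closure ((P : Set H) ∪ (Q : Set H)) = ⊤)
    (hP : (Subgroup.closure (P : Set H) : Set H).Infinite ∨ ((Q : Set H) \ P).Subsingleton)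
    (hQ : (Subgroup.closure (Q : Set H) : Set H).Infinite ∨ ((P : Set H) \ Q).Subsingleton)
    (G : Type) [Group G] (ι : H →* G) (hι : Function.Injective ι) :
    Paradoxical G (P.card + Q.card + 2) := by
  classical
  have hc : ∀ c : ENNReal, c < 2 → ¬ Pool.Agent.W336.CS.CostLe H c := by
    rintro c hc ⟨X, h1, h2, μ, h3, h4, h5, h6, A, s, h7, h8, h9⟩
    exact absurd ((hcost X μ h5 h6 A s h7 h8).trans h9) (not_le.2 hc)
  have hP' : (Subgroup.closure (P : Set H) : Set H).Infinite := by
    rcases hP with h | h
    · exact h
    · exact Pool.Agent.W246.TN.infinite_of_cost P Q h hgen hc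
  have hQ' : (Subgroup.closure (Q : Set H) : Set H).Infinite := by
    rcases hQ with h | h
    · exact h
    · exact Pool.Agent.W246.TN.infinite_of_cost Q P h (by rw [Set.union_comm]; exact hgen) hc
  exact Pool.Agent.W246.TN.main ι hι P Q hgen hc hP' hQ'

end Pool.Agent.Results.MP_354e85_al.CostTwo
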